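import Mathlib
import Pool.Agent.H54.Rob

set_option autoImplicit false

namespace Pool.Agent.Results.MP_742028_co.InfZero

open Pool.Agent.H54.Rob

/-- For a Ramsey-infinite graph the infimum of the robustness over Ramsey-minimal graphs is 0. -/
theorem result (r : ℕ) (_hr : 2 ≤ r) (h : ℕ) (H : SimpleGraph (Fin h))
    (hH : ¬ RamseyFinite r H) :
    IsGLB {x : ℝ | ∃ (n : ℕ) (G : SimpleGraph (Fin n)), RamseyMin r G H ∧
      x = (mult r H G : ℝ) / (mult 1 H G : ℝ)} 0 :=
  main H hH

end Pool.Agent.Results.MP_742028_co.InfZero
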